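import Mathlib

/-!
# The CONGEST model: definitions

A network is a graph on `Fin n` with a weight in `ℕ ∪ {∞}` for each ordered pair of nodes and a
source. The weights are only used for adjacent nodes, and an arc of infinite weight is absent.
-/

open Finset
open scoped ENNReal

namespace Congest

/-- A network with `n` nodes: the graph, the weights of the arcs and the source. -/
structure Net (n : ℕ) where
  G : SimpleGraph (Fin n)
  w : Fin n → Fin n → ℕ∞
  s : Fin n

/-- What a node knows at the beginning: its name, its neighbours, the weights of its outgoing and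
incoming arcs, and whether it is the source. -/
structure View (n : ℕ) where
  name : Fin n
  nbr : Fin n → Prop
  out : Fin n → ℕ∞
  inn : Fin n → ℕ∞
  src : Prop

/-- The view of the node `v` in the network `N`. -/
noncomputable def view {n : ℕ} (N : Net n) (v : Fin n) : View n := by
  classical exact
    ⟨v, N.G.Adj v, fun u => if N.G.Adj v u then N.w v u else ⊤,
      fun u => if N.G.Adj v u then N.w u v else ⊤, v = N.s⟩

/-- The messages: `C * (⌊log₂ n⌋ + 1)` bits. -/
abbrev Msg (C n : ℕ) : Type := Fin (C * (Nat.log 2 n + 1)) → Bool

/-- A randomised CONGEST algorithm with outputs in `Out`. In a network with `n` nodes each node has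
`bits n` random bits. In each round a node with the state `x` sends the message `send n x u` to its
neighbour `u`, and then computes its new state from `x` and the messages of its neighbours. The
current output of a node is computed from its state. -/
structure Alg (Out : Type) where
  C : ℕ
  State : ℕ → Type
  bits : ℕ → ℕ
  init : (n : ℕ) → View n → (Fin (bits n) → Bool) → State n
  send : (n : ℕ) → State n → Fin n → Msg C n
  recv : (n : ℕ) → State n → (Fin n → Msg C n) → State n
  out : (n : ℕ) → State n → Out

open Classical in
/-- The state of each node after `t` rounds, with the random bits `r`. -/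
noncomputable def Alg.run {Out : Type} (A : Alg Out) {n : ℕ} (N : Net n)
    (r : Fin n → Fin (A.bits n) → Bool) : ℕ → Fin n → A.State n
  | 0, v => A.init n (view N v) (r v)
  | t + 1, v => A.recv n (A.run N r t v) fun u =>
      if N.G.Adj v u then A.send n (A.run N r t u) v else fun _ => false

/-- The algorithm solves the problem `P` on the class `𝒩` of networks in `T n D` rounds with error
probability at most `ε n`, where `D` is the diameter: with probability at least `1 - ε n`, at all
times `t ≥ T n D` the outputs of all nodes are correct. -/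
def Alg.Solves {Out : Type} (A : Alg Out) (𝒩 : (n : ℕ) → Net n → Prop)
    (P : (n : ℕ) → Net n → Fin n → Out → Prop) (T : ℕ → ℕ → ℕ) (ε : ℕ → ℝ) : Prop :=
  ∀ (n : ℕ) (N : Net n), N.G.Connected → 𝒩 n N →
    (1 - ε n) * Nat.card (Fin n → Fin (A.bits n) → Bool) ≤
      Nat.card {r : Fin n → Fin (A.bits n) → Bool //
        ∀ t ≥ T n N.G.diam, ∀ v, P n N v (A.out n (A.run N r t v))}

/-- There is a directed path from the source to `v`. -/
def Net.Reaches {n : ℕ} (N : Net n) (v : Fin n) : Prop :=
  Relation.ReflTransGen (fun a b => N.G.Adj a b ∧ N.w a b ≠ ⊤) N.s v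

/-- `N.Cost v x`: there is a directed walk from the source to `v` of total weight `x`. -/
inductive Net.Cost {n : ℕ} (N : Net n) : Fin n → ℕ∞ → Prop
  | nil : Net.Cost N N.s 0
  | cons {u v : Fin n} {x : ℕ∞} : Net.Cost N u x → N.G.Adj u v → Net.Cost N v (x + N.w u v)

/-- The distance from the source to `v`; it is `∞` if there is no directed path. -/
noncomputable def Net.dist {n : ℕ} (N : Net n) (v : Fin n) : ℕ∞ := sInf {x | N.Cost v x}

/-- All finite weights are at most `n ^ c`. -/
def PolyWeights (c : ℕ) (n : ℕ) (N : Net n) : Prop :=
  ∀ u v, N.G.Adj u v → N.w u v = ⊤ ∨ N.w u v ≤ ((n ^ c : ℕ) : ℕ∞)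

/-- Single-source reachability: the output says whether there is a directed path from the source. -/
def ReachProblem (n : ℕ) (N : Net n) (v : Fin n) (o : Prop) : Prop := o ↔ N.Reaches v

/-- Directed single-source shortest paths with approximation ratio `α n`. -/
def SSSPProblem (α : ℕ → ℝ) (n : ℕ) (N : Net n) (v : Fin n) (o : ℝ≥0∞) : Prop :=
  ((N.dist v : ℕ∞) : ℝ≥0∞) ≤ o ∧ o ≤ ENNReal.ofReal (α n) * ((N.dist v : ℕ∞) : ℝ≥0∞)

/-- `K log^K n · (√n + D)` rounds. -/
def fast (K n D : ℕ) : ℕ := K * (Nat.log 2 n + 1) ^ K * (Nat.sqrt n + D)

/-- Directed single-source reachability is solvable in `Õ(√n + D)` rounds with high probability. -/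
def FastReach : Prop :=
  ∀ κ : ℕ, ∃ (A : Alg Prop) (K : ℕ),
    A.Solves (fun _ _ => True) ReachProblem (fast K) fun n => 1 / (n : ℝ) ^ κ

/-- Directed SSSP with approximation ratio `α` is solvable in `Õ(√n + D)` rounds with high
probability, for all polynomial bounds for the weights. -/
def FastSSSP (α : ℕ → ℝ) : Prop :=
  ∀ c κ : ℕ, ∃ (A : Alg ℝ≥0∞) (K : ℕ),
    A.Solves (PolyWeights c) (SSSPProblem α) (fast K) fun n => 1 / (n : ℝ) ^ κ

end Congest
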