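import Pool.Agent.Lib.CG.Mux

/-!
# Reachability and directed shortest paths are equivalent in the CONGEST model
-/

open Finset
open scoped ENNReal

namespace Congest

/-! ## Reachability from shortest paths -/

open Classical in
/-- All finite weights become zero. -/
noncomputable def zw (x : ℕ∞) : ℕ∞ := if x = ⊤ then ⊤ else 0

theorem zw_ne_top {x : ℕ∞} : zw x ≠ ⊤ ↔ x ≠ ⊤ := by
  unfold zw
  split_ifs with h
  · simp [h]
  · simp [h]

/-- The network with all finite weights replaced by zero. -/
noncomputable def zeroNet {n : ℕ} (N : Net n) : Net n := ⟨N.G, fun u v => zw (N.w u v), N.s⟩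

/-- The same for the view of a node. -/
noncomputable def zeroView {n : ℕ} (x : View n) : View n :=
  ⟨x.name, x.nbr, fun u => zw (x.out u), fun u => zw (x.inn u), x.src⟩

theorem view_zero {n : ℕ} (N : Net n) (v : Fin n) :
    view (zeroNet N) v = zeroView (view N v) := by
  unfold view zeroView zeroNet
  simp only [View.mk.injEq, true_and]
  constructor
  · funext u
    by_cases h : N.G.Adj v u
    · simp [h]
    · simp [h, zw]
  · refine ⟨?_, trivial⟩
    funext u
    by_cases h : N.G.Adj v u
    · simp [h]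
    · simp [h, zw]

section dist

variable {n : ℕ} {N : Net n} {v : Fin n}

theorem dist_zero_of_reaches (h : N.Reaches v) : (zeroNet N).dist v = 0 := by
  have h1 : (zeroNet N).Cost v 0 := by
    unfold Net.Reaches at h
    induction h with
    | refl => exact Net.Cost.nil
    | @tail u v _ h1 ih =>
      have h2 : (zeroNet N).w u v = 0 := if_neg h1.2
      have h3 := Net.Cost.cons ih (show (zeroNet N).G.Adj u v from h1.1)
      rwa [h2, add_zero] at h3
  exact le_antisymm (sInf_le h1) bot_le

theorem dist_top_of_not_reaches (h : ¬ N.Reaches v) : (zeroNet N).dist v = ⊤ := by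
  refine top_unique (le_sInf fun x hx => ?_)
  by_contra hcon
  rw [not_le, lt_top_iff_ne_top] at hcon
  apply h
  clear h
  induction hx with
  | nil => exact Relation.ReflTransGen.refl
  | @cons u v x _ h1 ih =>
    have h2 : (zeroNet N).w u v ≠ ⊤ := fun e => hcon (by rw [e]; exact add_top x)
    have h3 : x ≠ ⊤ := fun e => hcon (by rw [e]; exact top_add _)
    exact Relation.ReflTransGen.tail (ih h3) ⟨h1, zw_ne_top.1 h2⟩

end dist

/-- A node is reachable if its distance estimate, for zero weights, is finite. -/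
noncomputable def reachOf (A : Alg ℝ≥0∞) : Alg Prop where
  C := A.C
  State := A.State
  bits := A.bits
  init n x r := A.init n (zeroView x) r
  send := A.send
  recv := A.recv
  out n x := A.out n x ≠ ⊤

theorem reachOf_run (A : Alg ℝ≥0∞) {n : ℕ} (N : Net n) (r : Fin n → Fin (A.bits n) → Bool)
    (t : ℕ) (v : Fin n) : (reachOf A).run N r t v = A.run (zeroNet N) r t v := by
  induction t generalizing v with
  | zero =>
    show A.init n (zeroView (view N v)) (r v) = A.init n (view (zeroNet N) v) (r v)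
    rw [view_zero]
  | succ t ih =>
    show A.recv n ((reachOf A).run N r t v) _ = A.recv n (A.run (zeroNet N) r t v) _
    rw [ih]
    congr 1
    funext u
    rw [ih]
    rfl

theorem reachOf_solves {A : Alg ℝ≥0∞} {T : ℕ → ℕ → ℕ} {ε α : ℕ → ℝ} {c : ℕ}
    (hA : A.Solves (PolyWeights c) (SSSPProblem α) T ε) :
    (reachOf A).Solves (fun _ _ => True) ReachProblem T ε := by
  intro n N hG _
  have hw : PolyWeights c n (zeroNet N) := by
    intro u v _
    by_cases h : N.w u v = ⊤
    · exact Or.inl (if_pos h)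
    · refine Or.inr ?_
      have : (zeroNet N).w u v = 0 := if_neg h
      rw [this]
      exact bot_le
  refine (hA n (zeroNet N) hG hw).trans ?_
  have h2 : ∀ r : Fin n → Fin (A.bits n) → Bool, (∀ t ≥ T n N.G.diam, ∀ v,
      SSSPProblem α n (zeroNet N) v (A.out n (A.run (zeroNet N) r t v))) →
      ∀ t ≥ T n N.G.diam, ∀ v, ReachProblem n N v
        ((reachOf A).out n ((reachOf A).run N r t v)) := by
    intro r hr t ht v
    rw [reachOf_run]
    obtain ⟨h3, h4⟩ := hr t ht v
    show (A.out n (A.run (zeroNet N) r t v) ≠ ⊤) ↔ N.Reaches v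
    constructor
    · intro h5
      by_contra h6
      rw [dist_top_of_not_reaches h6, ENat.toENNReal_top] at h3
      exact h5 (top_unique h3)
    · intro h5 h6
      rw [dist_zero_of_reaches h5, ENat.toENNReal_zero, mul_zero, h6] at h4
      exact absurd h4 (by simp)
  exact_mod_cast Nat.card_le_card_of_injective (fun r : {r : Fin n → Fin (A.bits n) → Bool //
      ∀ t ≥ T n N.G.diam, ∀ v,
      SSSPProblem α n (zeroNet N) v (A.out n (A.run (zeroNet N) r t v))} =>
    (⟨r.1, h2 r.1 r.2⟩ : {r : Fin n → Fin ((reachOf A).bits n) → Bool //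
      ∀ t ≥ T n N.G.diam, ∀ v, ReachProblem n N v
        ((reachOf A).out n ((reachOf A).run N r t v))}))
    (fun r r' h => Subtype.ext (Subtype.mk.inj h))

/-! ## Fast algorithms -/

theorem solves_mono {Out : Type} {A : Alg Out} {𝒩 : (n : ℕ) → Net n → Prop}
    {P : (n : ℕ) → Net n → Fin n → Out → Prop} {T T' : ℕ → ℕ → ℕ} {ε ε' : ℕ → ℝ}
    (h : A.Solves 𝒩 P T ε) (hT : ∀ n D, T n D ≤ T' n D)
    (hε : ∀ n, 0 < n → ε n ≤ ε' n ∨ 1 ≤ ε' n) : A.Solves 𝒩 P T' ε' := by
  intro n N hG hN
  have hn : 0 < n := N.s.pos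
  rcases hε n hn with h1 | h1
  · have h2 : (1 - ε' n) * Nat.card (Fin n → Fin (A.bits n) → Bool) ≤
        (1 - ε n) * Nat.card (Fin n → Fin (A.bits n) → Bool) :=
      mul_le_mul_of_nonneg_right (by linarith) (Nat.cast_nonneg _)
    refine h2.trans ((h n N hG hN).trans ?_)
    exact_mod_cast Nat.card_le_card_of_injective (fun r : {r : Fin n → Fin (A.bits n) → Bool //
        ∀ t ≥ T n N.G.diam, ∀ v, P n N v (A.out n (A.run N r t v))} =>
      (⟨r.1, fun t ht v => r.2 t ((hT _ _).trans ht) v⟩ :
        {r : Fin n → Fin (A.bits n) → Bool //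
        ∀ t ≥ T' n N.G.diam, ∀ v, P n N v (A.out n (A.run N r t v))}))
      (fun r r' h => Subtype.ext (Subtype.mk.inj h))
  · have h2 : (1 - ε' n) * Nat.card (Fin n → Fin (A.bits n) → Bool) ≤ 0 :=
      mul_nonpos_of_nonpos_of_nonneg (by linarith) (Nat.cast_nonneg _)
    exact h2.trans (Nat.cast_nonneg _)

theorem nthr_le (c n : ℕ) : nthr c n ≤ (c + 2) * (Nat.log 2 n + 1) := by
  unfold nthr
  nlinarith [Nat.zero_le (Nat.log 2 n)]

theorem fastSSSP_of_fastReach (h : FastReach) : FastSSSP fun n => 2 * (n : ℝ) := by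
  intro c κ
  obtain ⟨A, K, hA⟩ := h (κ + (c + 2))
  refine ⟨mux A (nthr c), (c + 2) * K + 1, solves_mono (mux_solves hA c) ?_ ?_⟩
  · intro n D
    unfold fast
    set l := Nat.log 2 n + 1 with hl
    have hl1 : 1 ≤ l := by omega
    have h1 : nthr c n ≤ (c + 2) * l := nthr_le c n
    have h2 : l ^ (K + 1) ≤ l ^ ((c + 2) * K + 1) := by
      refine Nat.pow_le_pow_right hl1 ?_
      nlinarith [Nat.zero_le (c * K)]
    calc nthr c n * (K * l ^ K * (Nat.sqrt n + D))
        ≤ (c + 2) * l * (K * l ^ K * (Nat.sqrt n + D)) := Nat.mul_le_mul_right _ h1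
      _ = (c + 2) * K * l ^ (K + 1) * (Nat.sqrt n + D) := by ring
      _ ≤ ((c + 2) * K + 1) * l ^ ((c + 2) * K + 1) * (Nat.sqrt n + D) := by
        refine Nat.mul_le_mul_right _ (Nat.mul_le_mul (Nat.le_succ _) h2)
  · intro n hn
    rcases Nat.lt_or_ge n 2 with h1 | h1
    · right
      obtain rfl : n = 1 := by omega
      simp
    · left
      have hl : Nat.log 2 n + 1 ≤ n := Nat.log_lt_of_lt_pow (by omega) (Nat.lt_two_pow_self)
      have h2 : nthr c n ≤ n ^ (c + 2) := by
        refine (nthr_le c n).trans ?_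
        have h3 : c + 2 ≤ n ^ (c + 1) := by
          refine le_trans ?_ (Nat.pow_le_pow_left h1 (c + 1))
          have := Nat.lt_two_pow_self (n := c + 1)
          omega
        calc (c + 2) * (Nat.log 2 n + 1) ≤ n ^ (c + 1) * n := Nat.mul_le_mul h3 hl
          _ = n ^ (c + 2) := by ring
      have hn0 : (0 : ℝ) < n := by exact_mod_cast hn
      have h3 : (nthr c n : ℝ) ≤ (n : ℝ) ^ (c + 2) := by exact_mod_cast h2
      rw [pow_add, mul_one_div, div_le_div_iff₀ (by positivity) (by positivity), one_mul]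
      calc (nthr c n : ℝ) * (n : ℝ) ^ κ ≤ (n : ℝ) ^ (c + 2) * (n : ℝ) ^ κ :=
            mul_le_mul_of_nonneg_right h3 (by positivity)
        _ = (n : ℝ) ^ κ * (n : ℝ) ^ (c + 2) := mul_comm _ _

theorem fastReach_of_fastSSSP {α : ℕ → ℝ} (h : FastSSSP α) : FastReach := by
  intro κ
  obtain ⟨A, K, hA⟩ := h 0 κ
  exact ⟨reachOf A, K, reachOf_solves hA⟩

end Congest
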