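import Pool.Agent.Lib.CG.Defs

/-!
# Shortest paths from reachability: all thresholds at the same time
-/

open Finset
open scoped ENNReal

namespace Congest

/-! ## Short directed walks -/

section steps

variable {n : ℕ}

/-- There is a walk with `k` steps. -/
private def Steps (r : Fin n → Fin n → Prop) (s : Fin n) : ℕ → Fin n → Prop
  | 0, v => v = s
  | k + 1, v => ∃ u, Steps r s k u ∧ r u v

private theorem steps_of_reach {r : Fin n → Fin n → Prop} {s v : Fin n}
    (h : Relation.ReflTransGen r s v) : ∃ k, Steps r s k v := by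
  induction h with
  | refl => exact ⟨0, rfl⟩
  | tail _ h1 ih =>
    obtain ⟨k, hk⟩ := ih
    exact ⟨k + 1, _, hk, h1⟩

open Classical in
private theorem exists_short {r : Fin n → Fin n → Prop} {s v : Fin n}
    (h : Relation.ReflTransGen r s v) : ∃ k < n, Steps r s k v := by
  have hex := steps_of_reach h
  refine ⟨Nat.find hex, ?_, Nat.find_spec hex⟩
  -- the minimal number of steps takes all smaller values
  have key : ∀ k : ℕ, ∀ v : Fin n, Steps r s k v → (∀ j < k, ¬ Steps r s j v) →
      ∀ i ≤ k, ∃ u, Steps r s i u ∧ ∀ j < i, ¬ Steps r s j u := by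
    intro k
    induction k with
    | zero =>
      intro v hv _ i hi
      obtain rfl : i = 0 := by omega
      exact ⟨v, hv, fun j hj => absurd hj (by omega)⟩
    | succ k ih =>
      rintro v ⟨u, hu, hr⟩ hmin i hi
      rcases Nat.lt_or_ge k i with h1 | h1
      · obtain rfl : i = k + 1 := by omega
        exact ⟨v, ⟨u, hu, hr⟩, hmin⟩
      · refine ih u hu (fun j hj hju => ?_) i h1
        exact hmin (j + 1) (by omega) ⟨u, hju, hr⟩
  have h1 := key _ v (Nat.find_spec hex) fun j hj => Nat.find_min hex hj
  have : Nonempty (Fin n) := ⟨v⟩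
  choose! f hf using h1
  have hinj : Set.InjOn f (Finset.range (Nat.find hex + 1) : Set ℕ) := by
    intro i hi j hj hij
    have hi' : i ≤ Nat.find hex := by
      have := Finset.mem_coe.1 hi
      rw [mem_range] at this
      omega
    have hj' : j ≤ Nat.find hex := by
      have := Finset.mem_coe.1 hj
      rw [mem_range] at this
      omega
    rcases Nat.lt_trichotomy i j with h2 | h2 | h2
    · exact absurd (hij ▸ (hf i hi').1) ((hf j hj').2 i h2)
    · exact h2
    · exact absurd (hij ▸ (hf j hj').1) ((hf i hi').2 j h2)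
  have h3 := card_le_card_of_injOn f (s := range (Nat.find hex + 1)) (t := univ)
    (fun _ _ => mem_univ _) hinj
  rw [card_range, card_univ, Fintype.card_fin] at h3
  omega

end steps

/-! ## Thresholds -/

/-- The thresholds `0, 1, 2, 4, 8, ...`. -/
def tau (j : ℕ) : ℕ := if j = 0 then 0 else 2 ^ (j - 1)

theorem tau_le (j : ℕ) : tau (j + 1) ≤ 2 * (tau j + 1) := by
  unfold tau
  rcases j with _ | j
  · simp
  · simp only [Nat.add_eq_zero_iff, one_ne_zero, and_false, if_false, Nat.add_sub_cancel]
    rw [pow_succ]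
    omega

open Classical in
/-- Weights above the threshold become infinite, the others zero. -/
noncomputable def thrW (τ : ℕ) (x : ℕ∞) : ℕ∞ := if x ≤ (τ : ℕ∞) then 0 else ⊤

theorem thrW_ne_top {τ : ℕ} {x : ℕ∞} : thrW τ x ≠ ⊤ ↔ x ≤ (τ : ℕ∞) := by
  unfold thrW
  split_ifs with h
  · simp [h]
  · simp [h]

theorem thrW_top (τ : ℕ) : thrW τ ⊤ = ⊤ := by
  unfold thrW
  simp

/-- The network with the weights above the threshold number `j` removed. -/
noncomputable def thrNet {n : ℕ} (N : Net n) (j : ℕ) : Net n :=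
  ⟨N.G, fun u v => thrW (tau j) (N.w u v), N.s⟩

/-- The same for the view of a node. -/
noncomputable def thrView {n : ℕ} (j : ℕ) (x : View n) : View n :=
  ⟨x.name, x.nbr, fun u => thrW (tau j) (x.out u), fun u => thrW (tau j) (x.inn u), x.src⟩

theorem view_thr {n : ℕ} (N : Net n) (j : ℕ) (v : Fin n) :
    view (thrNet N j) v = thrView j (view N v) := by
  unfold view thrView thrNet
  simp only [View.mk.injEq, true_and]
  constructor
  · funext u
    by_cases h : N.G.Adj v u
    · simp [h]
    · simp [h, thrW_top]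
  · refine ⟨?_, trivial⟩
    funext u
    by_cases h : N.G.Adj v u
    · simp [h]
    · simp [h, thrW_top]

section dist

variable {n : ℕ} {N : Net n} {v : Fin n}

/-- Reachability below the threshold bounds the distance. -/
theorem dist_le_of_reaches {j : ℕ} (h : (thrNet N j).Reaches v) :
    N.dist v ≤ ((n * tau j : ℕ) : ℕ∞) := by
  obtain ⟨k, hk, hs⟩ := exists_short h
  have key : ∀ k v, Steps (fun a b => (thrNet N j).G.Adj a b ∧ (thrNet N j).w a b ≠ ⊤)
      (thrNet N j).s k v → ∃ x : ℕ∞, N.Cost v x ∧ x ≤ ((k * tau j : ℕ) : ℕ∞) := by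
    intro k
    induction k with
    | zero =>
      rintro v rfl
      exact ⟨0, Net.Cost.nil, by simp⟩
    | succ k ih =>
      rintro v ⟨u, hu, h1, h2⟩
      obtain ⟨x, hx, hxk⟩ := ih u hu
      refine ⟨x + N.w u v, Net.Cost.cons hx h1, ?_⟩
      have h3 : N.w u v ≤ (tau j : ℕ∞) := thrW_ne_top.1 h2
      rw [Nat.add_mul, one_mul, Nat.cast_add]
      exact add_le_add hxk h3
  obtain ⟨x, hx, hxk⟩ := key k v hs
  refine (sInf_le hx).trans (hxk.trans ?_)
  exact_mod_cast Nat.mul_le_mul_right _ hk.le

theorem reaches_of_cost {j : ℕ} {x : ℕ∞} (h : N.Cost v x) (hx : x ≤ (tau j : ℕ∞)) :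
    (thrNet N j).Reaches v := by
  induction h with
  | nil => exact Relation.ReflTransGen.refl
  | cons _ h1 ih =>
    refine Relation.ReflTransGen.tail (ih ((self_le_add_right _ _).trans hx)) ⟨h1, ?_⟩
    exact thrW_ne_top.2 ((self_le_add_left _ _).trans hx)

theorem le_dist_of_not_reaches {j : ℕ} (h : ¬ (thrNet N j).Reaches v) :
    ((tau j + 1 : ℕ) : ℕ∞) ≤ N.dist v := by
  refine le_sInf fun x hx => ?_
  by_contra hcon
  rw [not_le] at hcon
  refine h (reaches_of_cost hx ?_)
  rw [Nat.cast_add, Nat.cast_one] at hcon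
  exact Order.le_of_lt_add_one hcon

theorem dist_eq_top {c j : ℕ} (hw : PolyWeights c n N) (hj : n ^ c ≤ tau j)
    (h : ¬ (thrNet N j).Reaches v) : N.dist v = ⊤ := by
  refine top_unique (le_sInf fun x hx => ?_)
  by_contra hcon
  rw [not_le, lt_top_iff_ne_top] at hcon
  apply h
  clear h
  induction hx with
  | nil => exact Relation.ReflTransGen.refl
  | @cons u v x _ h1 ih =>
    have h2 : N.w u v ≠ ⊤ := fun e => hcon (by rw [e]; exact add_top x)
    have h3 : x ≠ ⊤ := fun e => hcon (by rw [e]; exact top_add _)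
    refine Relation.ReflTransGen.tail (ih h3) ⟨h1, thrW_ne_top.2 ?_⟩
    rcases hw u v h1 with h4 | h4
    · exact absurd h4 h2
    · exact h4.trans (by exact_mod_cast hj)

end dist

/-! ## The algorithm -/

open Classical in
/-- The estimate of the distance from the answers for the thresholds. -/
noncomputable def est (n L : ℕ) (f : ℕ → Prop) : ℝ≥0∞ :=
  if h : ∃ j, j < L ∧ f j then ((n * tau (Nat.find h) : ℕ) : ℝ≥0∞) else ⊤

open Classical in
theorem est_correct {n : ℕ} {N : Net n} {c L : ℕ} (hw : PolyWeights c n N)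
    (hL : n ^ c ≤ tau (L - 1)) (hL0 : 0 < L) (v : Fin n) {f : ℕ → Prop}
    (hf : ∀ j < L, (f j ↔ (thrNet N j).Reaches v)) :
    SSSPProblem (fun n => 2 * (n : ℝ)) n N v (est n L f) := by
  unfold est SSSPProblem
  have hn : 0 < n := v.pos
  have hα : ENNReal.ofReal (2 * (n : ℝ)) = ((2 * n : ℕ) : ℝ≥0∞) := by
    rw [← ENNReal.ofReal_natCast]
    congr 1
    push_cast
    ring
  by_cases h : ∃ j, j < L ∧ f j
  · rw [dif_pos h, hα]
    obtain ⟨h1, h2⟩ := Nat.find_spec h
    have h3 := dist_le_of_reaches ((hf _ h1).1 h2)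
    have h4 : tau (Nat.find h) ≤ 2 * tau (Nat.find h) := by omega
    constructor
    · have := (ENat.toENNReal_le).2 h3
      simpa using this
    · rcases Nat.eq_zero_or_pos (Nat.find h) with h5 | h5
      · rw [h5]
        simp [tau]
      · obtain ⟨i, hi⟩ : ∃ i, Nat.find h = i + 1 := ⟨Nat.find h - 1, by omega⟩
        have h6 : ¬ (thrNet N i).Reaches v := by
          intro h7
          have h8 : i < L := by omega
          exact Nat.find_min h (m := i) (by omega) ⟨h8, (hf _ h8).2 h7⟩
        have h7 := le_dist_of_not_reaches h6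
        have h8 : (((n * tau (i + 1) : ℕ) : ℕ∞)) ≤ ((2 * n : ℕ) : ℕ∞) * N.dist v := by
          calc (((n * tau (i + 1) : ℕ) : ℕ∞)) ≤ ((2 * n * (tau i + 1) : ℕ) : ℕ∞) := by
                have := Nat.mul_le_mul_left n (tau_le i)
                have h9 : n * (2 * (tau i + 1)) = 2 * n * (tau i + 1) := by ring
                rw [h9] at this
                exact_mod_cast this
            _ = ((2 * n : ℕ) : ℕ∞) * ((tau i + 1 : ℕ) : ℕ∞) := by push_cast; ring
            _ ≤ _ := mul_le_mul_right h7 _
        rw [hi]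
        have h10 := (ENat.toENNReal_le).2 h8
        rw [ENat.toENNReal_mul] at h10
        simpa using h10
  · rw [dif_neg h]
    have h1 : ¬ (thrNet N (L - 1)).Reaches v := fun h2 =>
      h ⟨L - 1, by omega, (hf _ (by omega)).2 h2⟩
    rw [dist_eq_top hw hL h1, hα]
    refine ⟨le_top, ?_⟩
    rw [ENat.toENNReal_top, ENNReal.mul_top]
    have : 2 * n ≠ 0 := by omega
    exact_mod_cast this

/-- All thresholds at the same time: in round `t` the instance `t % L n` makes one round. -/
noncomputable def mux (A : Alg Prop) (L : ℕ → ℕ) : Alg ℝ≥0∞ where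
  C := A.C
  State n := ℕ × (ℕ → A.State n)
  bits := A.bits
  init n x r := (0, fun j => A.init n (thrView j x) r)
  send n x u := A.send n (x.2 (x.1 % L n)) u
  recv n x m := (x.1 + 1, Function.update x.2 (x.1 % L n) (A.recv n (x.2 (x.1 % L n)) m))
  out n x := est n (L n) fun j => A.out n (x.2 j)

open Classical in
theorem mux_run (A : Alg Prop) (L : ℕ → ℕ) {n : ℕ} (hL : 0 < L n) (N : Net n)
    (r : Fin n → Fin (A.bits n) → Bool) (t : ℕ) (v : Fin n) :
    ((mux A L).run N r t v).1 = t ∧ ∀ j < L n, ((mux A L).run N r t v).2 j =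
      A.run (thrNet N j) r (Nat.count (fun x => x % L n = j) t) v := by
  induction t generalizing v with
  | zero =>
    refine ⟨rfl, fun j _ => ?_⟩
    show A.init n (thrView j (view N v)) (r v) = A.init n (view (thrNet N j) v) (r v)
    rw [view_thr]
  | succ t ih =>
    obtain ⟨h1, h2⟩ := ih v
    refine ⟨congrArg (· + 1) h1, fun j hj => ?_⟩
    set x := (mux A L).run N r t v with hx
    have hm : t % L n < L n := Nat.mod_lt _ hL
    show Function.update x.2 (x.1 % L n) (A.recv n (x.2 (x.1 % L n)) _) j = _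
    rw [h1]
    rw [Nat.count_succ]
    by_cases hjt : t % L n = j
    · subst hjt
      rw [Function.update_self, if_pos rfl, h2 _ hm]
      show _ = A.recv n (A.run (thrNet N (t % L n)) r _ v) _
      congr 1
      funext u
      show (if N.G.Adj v u then A.send n (((mux A L).run N r t u).2
        (((mux A L).run N r t u).1 % L n)) v else fun _ => false) = _
      rw [(ih u).1, (ih u).2 _ hm]
      rfl
    · rw [Function.update_of_ne (Ne.symm hjt), if_neg hjt, add_zero]
      exact h2 j hj

/-- Each instance has made `T` rounds after `L * T` rounds. -/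
theorem le_count {L j T t : ℕ} (hj : j < L) (ht : L * T ≤ t) :
    T ≤ Nat.count (fun x => x % L = j) t := by
  refine le_trans ?_ (Nat.count_monotone _ ht)
  induction T generalizing t with
  | zero => exact Nat.zero_le _
  | succ T ih =>
    rw [Nat.mul_succ, Nat.count_add]
    have h1 : 1 ≤ Nat.count (fun k => (L * T + k) % L = j) L := by
      have h2 : (fun k => (L * T + k) % L = j) = fun k => k % L = j := by
        funext k
        rw [Nat.mul_add_mod]
      simp only [h2]
      have h3 := Nat.count_monotone (fun k => k % L = j) (Nat.succ_le_of_lt hj)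
      rw [Nat.count_succ, if_pos (Nat.mod_eq_of_lt hj)] at h3
      omega
    have h4 := ih (t := L * T) le_rfl
    omega

open Classical in
theorem union_bound {R : Type} [Finite R] (L : ℕ) (g : ℕ → R → Prop) (ε : ℝ)
    (h : ∀ j < L, (1 - ε) * Nat.card R ≤ Nat.card {r // g j r}) :
    (1 - L * ε) * Nat.card R ≤ Nat.card {r // ∀ j < L, g j r} := by
  have := Fintype.ofFinite R
  simp only [Nat.card_eq_fintype_card, Fintype.card_subtype] at h ⊢
  induction L with
  | zero => simp
  | succ L ih =>
    have h1 := ih fun j hj => h j (by omega)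
    have h2 := h L (by omega)
    have h3 : (univ.filter fun r => ∀ j < L, g j r) ∩ (univ.filter fun r => g L r) =
        univ.filter fun r => ∀ j < L + 1, g j r := by
      ext r
      simp only [mem_inter, mem_filter, mem_univ, true_and]
      constructor
      · rintro ⟨h4, h5⟩ j hj
        rcases Nat.lt_or_ge j L with h6 | h6
        · exact h4 j h6
        · obtain rfl : j = L := by omega
          exact h5
      · exact fun h4 => ⟨fun j hj => h4 j (by omega), h4 L (by omega)⟩
    have h4 := card_union_add_card_inter (univ.filter fun r => ∀ j < L, g j r)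
      (univ.filter fun r => g L r)
    rw [h3] at h4
    have h5 : ((univ.filter fun r => ∀ j < L, g j r) ∪ (univ.filter fun r => g L r)).card ≤
        Fintype.card R := card_le_univ _
    have h6 : ((univ.filter fun r : R => ∀ j < L, g j r).card : ℝ) +
        ((univ.filter fun r : R => g L r).card : ℝ) ≤
        (Fintype.card R : ℝ) + ((univ.filter fun r : R => ∀ j < L + 1, g j r).card : ℝ) := by
      rw [← Nat.cast_add, ← Nat.cast_add, ← h4]
      exact_mod_cast Nat.add_le_add_right h5 _
    push_cast
    linarith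

/-- The number of thresholds. -/
def nthr (c n : ℕ) : ℕ := c * (Nat.log 2 n + 1) + 2

theorem pow_le_tau (c : ℕ) {n : ℕ} : n ^ c ≤ tau (nthr c n - 1) := by
  have h1 : tau (nthr c n - 1) = 2 ^ (c * (Nat.log 2 n + 1)) := by
    unfold tau nthr
    simp
  rw [h1, mul_comm, pow_mul]
  exact Nat.pow_le_pow_left (Nat.lt_pow_succ_log_self (by norm_num) n).le c

/-- Reachability in `T` rounds gives shortest paths with ratio `2 n` in `O(log n) T` rounds. -/
theorem mux_solves {A : Alg Prop} {T : ℕ → ℕ → ℕ} {ε : ℕ → ℝ}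
    (hA : A.Solves (fun _ _ => True) ReachProblem T ε) (c : ℕ) :
    (mux A (nthr c)).Solves (PolyWeights c) (SSSPProblem fun n => 2 * (n : ℝ))
      (fun n D => nthr c n * T n D) fun n => nthr c n * ε n := by
  intro n N hG hw
  have h0 : 0 < nthr c n := by unfold nthr; omega
  have h1 := union_bound (R := Fin n → Fin (A.bits n) → Bool) (nthr c n)
    (fun j r => ∀ t ≥ T n N.G.diam, ∀ v, ReachProblem n (thrNet N j) v
      (A.out n (A.run (thrNet N j) r t v))) (ε n) fun j _ => hA n (thrNet N j) hG trivial
  refine h1.trans ?_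
  have h2 : ∀ r : Fin n → Fin (A.bits n) → Bool, (∀ j < nthr c n, ∀ t ≥ T n N.G.diam, ∀ v,
      ReachProblem n (thrNet N j) v (A.out n (A.run (thrNet N j) r t v))) →
      ∀ t ≥ nthr c n * T n N.G.diam, ∀ v, SSSPProblem (fun n => 2 * (n : ℝ)) n N v
        ((mux A (nthr c)).out n ((mux A (nthr c)).run N r t v)) := by
    intro r hr t ht v
    refine est_correct hw (pow_le_tau c) h0 v fun j hj => ?_
    rw [(mux_run A (nthr c) h0 N r t v).2 j hj]
    exact hr j hj _ (le_count hj ht) v
  exact_mod_cast Nat.card_le_card_of_injective (fun r : {r : Fin n → Fin (A.bits n) → Bool //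
      ∀ j < nthr c n, ∀ t ≥ T n N.G.diam, ∀ v,
      ReachProblem n (thrNet N j) v (A.out n (A.run (thrNet N j) r t v))} =>
    (⟨r.1, h2 r.1 r.2⟩ : {r : Fin n → Fin ((mux A (nthr c)).bits n) → Bool //
      ∀ t ≥ nthr c n * T n N.G.diam, ∀ v, SSSPProblem (fun n => 2 * (n : ℝ)) n N v
        ((mux A (nthr c)).out n ((mux A (nthr c)).run N r t v))}))
    (fun r r' h => Subtype.ext (Subtype.mk.inj h))

end Congest
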